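import Pool.Agent.Helper11.KS.Sheet
import Pool.Agent.Helper63.NH.SIM
open MeasureTheory Metric Set Filter Topology Real
open scoped ENNReal NNReal

/-!
# Row SIM of KS (MP_665203_co): scaling to a disc of radius larger than one
-/

namespace H11ST
namespace KS

open NH H11ST.PU.SCL

/-- the row SIM -/
theorem sim_row : KS_SIM := by
  intro A S x r t L hA ht ht1 y y' hne hy hy' hT hT'
  have hr := L.rpos
  have hd : dist y x / t < r := by
    rw [div_lt_iff₀ ht, mul_comm]
    exact mem_ball.1 hy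
  have hd' : dist y' x / t < r := by
    rw [div_lt_iff₀ ht, mul_comm]
    exact mem_ball.1 hy'
  obtain ⟨R, hR1, hR2⟩ := exists_between (max_lt hd hd')
  have hR : 0 < R :=
    lt_of_le_of_lt ((div_nonneg dist_nonneg ht.le).trans (le_max_left _ _)) hR1
  have hyR : y ∈ ball x (t * R) := by
    rw [mem_ball, mul_comm, ← div_lt_iff₀ ht]
    exact (le_max_left _ _).trans_lt hR1
  have hyR' : y' ∈ ball x (t * R) := by
    rw [mem_ball, mul_comm, ← div_lt_iff₀ ht]
    exact (le_max_right _ _).trans_lt hR1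
  have hreg := reg_at (by norm_num) L hA hT
  have key : ∀ z : E 2, z ∈ ball x (t * R) → (∃ u ε, Tri S z u ε) →
      ‖(hom x R hR).symm z‖ < t ∧
        ∃ u ε, Tri (hom x R hR ⁻¹' S) ((hom x R hR).symm z) u ε := by
    intro z hz h
    obtain ⟨u, ε, h⟩ := h
    have h3 : hom x R hR ((hom x R hR).symm z) = z := Homeomorph.apply_symm_apply _ _
    refine ⟨?_, u, ε / R, PU.SCL.tri hR ?_⟩
    · have h4 := (mem_ball_hom_zero (x := x) hR ((hom x R hR).symm z) t).1 (by
        rw [h3]
        exact hz)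
      rwa [mem_ball, dist_zero_right] at h4
    · show Tri S (hom x R hR ((hom x R hR).symm z)) u ε
      rw [h3]; exact h
  refine ⟨hom x R hR ⁻¹' A, hom x R hR ⁻¹' S, r / R, (hom x R hR).symm y,
    (hom x R hR).symm y',
    ⟨SimP.locAdm hR L, hA.preimage (hom x R hR).continuous, (one_lt_div hR).2 hR2, ?_⟩,
    fun h => hne ((hom x R hR).symm.injective h), (key y hyR hT).1, (key y' hyR' hT').1,
    (key y hyR hT).2, (key y' hyR' hT').2⟩
  rintro z ⟨hz, hzb⟩
  rcases hreg (hom x R hR z) ⟨hz, (SimP.mem_ball hR z).2 hzb⟩ with ⟨u, ε, h⟩ | ⟨u, ε, h⟩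
  · exact Or.inl ⟨u, _, PU.SCL.lin hR h⟩
  · exact Or.inr ⟨u, _, PU.SCL.tri hR h⟩

end KS
end H11ST
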